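import Mathlib
import Pool.Agent.H27.PageB

set_option autoImplicit false

namespace Pool.Agent.Results.MP_9bbf37_lc.Q1

open Pool.Agent.H27.Page

theorem result (α : Type) (C0 : Finset α) (k : ℕ) (hk : 1 ≤ k) (hC : C0.card = k)
    (hout : ∃ p : α, p ∉ C0) (i l : ℕ) (hil : i < l) :
    comp C0 i l = (((min k (l / (i + 1) + 1) : ℕ) : ℝ) : EReal) := by
  obtain ⟨p, hp⟩ := hout
  subst hC
  exact comp_eq C0 (Finset.card_pos.mp hk) p hp i l hil

end Pool.Agent.Results.MP_9bbf37_lc.Q1
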