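import Mathlib
import Pool.Agent.H27.PageB

set_option autoImplicit false

namespace Pool.Agent.Results.MP_9bbf37_lc.Q2

open Pool.Agent.H27.Page

theorem result (α : Type) (C0 : Finset α) (k : ℕ) (hk : 1 ≤ k) (hC : C0.card = k)
    (hout : ∃ p : α, p ∉ C0) :
    ∃ i j l : ℕ, i < j ∧ j < l ∧ l ≤ 3 ∧ comp C0 i l ≤ comp C0 j l := by
  obtain ⟨p, hp⟩ := hout
  subst hC
  refine ⟨1, 2, 3, by norm_num, by norm_num, le_rfl, le_of_eq ?_⟩
  rw [comp_eq C0 (Finset.card_pos.mp hk) p hp 1 3 (by norm_num),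
    comp_eq C0 (Finset.card_pos.mp hk) p hp 2 3 (by norm_num)]

end Pool.Agent.Results.MP_9bbf37_lc.Q2
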